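import Mathlib
import Pool.Agent.W_MP_ded0ac_co.Defs
import Pool.Agent.W_MP_ded0ac_co.Bridge

set_option autoImplicit false

open Complex MeasureTheory Filter Topology

namespace Pool.Agent.Results.MP_ded0ac_co.ShiftedSetupRatio

open Pool.Agent.W_MP_ded0ac_co

/-- For every `n ≥ 3` and every shifted `(n+1, n)`-setup of regular `n`-gons with side length
one, the ratio of perimeter (length of the boundary, one-dimensional Hausdorff measure) and area
of the union exceeds `4 tan (π / n)`, the ratio of one regular `n`-gon of side one. Moreover the
boundary pattern required of a shifted setup is preserved for all sufficiently small shifts. -/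
theorem result (n : ℕ) (hn : 3 ≤ n) (A : ℂ)
    (hA : ‖A * exp (2 * Real.pi * I / n) - A‖ = 1) :
    (∀ᶠ ε : ℝ in 𝓝[>] 0, SamePattern n A ε) ∧
    ∀ ε : ℝ, 0 < ε → SamePattern n A ε →
      4 * Real.tan (Real.pi / n) <
        (μH[1] (frontier (setupUnion n A ε))).toReal / (volume (setupUnion n A ε)).toReal :=
  main hn A hA

end Pool.Agent.Results.MP_ded0ac_co.ShiftedSetupRatio
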